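import Mathlib
import Pool.Agent.U209.BX.Stm

/-!
# Project BX, package STA: the choice of the bump
-/

set_option autoImplicit false

namespace Pool.Agent.U955.BX

open Polynomial Complex Finset Filter Topology MeasureTheory ComplexConjugate Metric
open Pool.Agent.U209.BX

lemma norm_ex (θ : ℝ) : ‖ex θ‖ = 1 := by
  unfold ex; exact Complex.norm_exp_ofReal_mul_I θ

lemma continuous_ex : Continuous ex := by
  unfold ex; fun_prop

lemma K_continuousOn (hKK : S_KK) (u : ℂ[X]) (hu : ZF u) :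
    ContinuousOn (K u) (closedBall (0:ℂ) 1) := by
  obtain ⟨⟨C, ρ, hρ, hC⟩, -, -⟩ := hKK u hu
  have hs : Summable (fun n : ℕ => C * (ρ⁻¹) ^ n) := by
    apply Summable.mul_left
    apply summable_geometric_of_lt_one
    · positivity
    · exact inv_lt_one_of_one_lt₀ hρ
  have hcont : ∀ n : ℕ, ContinuousOn (fun z : ℂ => Kc u n * z ^ n) (closedBall (0:ℂ) 1) := by
    intro n; fun_prop
  have hb : ∀ (n : ℕ) (z : ℂ), z ∈ closedBall (0:ℂ) 1 → ‖Kc u n * z ^ n‖ ≤ C * (ρ⁻¹) ^ n := by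
    intro n z hz
    rw [norm_mul, norm_pow]
    have hz' : ‖z‖ ≤ 1 := by simpa using hz
    have h1 : ‖z‖ ^ n ≤ 1 := pow_le_one₀ (norm_nonneg _) hz'
    calc ‖Kc u n‖ * ‖z‖ ^ n ≤ ‖Kc u n‖ * 1 := by gcongr
      _ ≤ _ := by simpa using hC n
  exact continuousOn_tsum hcont hs hb

/-- the profile of the bump on the circle -/
noncomputable def ph (z0 : ℂ) (N : ℕ) (z : ℂ) : ℝ := (‖1 + z * conj z0‖ / 2) ^ (2 * N)

lemma ph_nonneg (z0 : ℂ) (N : ℕ) (z : ℂ) : 0 ≤ ph z0 N z := by unfold ph; positivity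

lemma ph_continuous (z0 : ℂ) (N : ℕ) : Continuous (ph z0 N) := by unfold ph; fun_prop

lemma norm_v (hB : S_BUMP) (z0 : ℂ) (h0 : ‖z0‖ = 1) (b : ℂ) (N : ℕ) (z : ℂ) (hz : ‖z‖ = 1) :
    ‖(C b * bump z0 N).eval z‖ = ‖b‖ * ph z0 N z := by
  rw [eval_mul, eval_C, (hB.1 z0 z N h0 hz).1, norm_mul, norm_mul, norm_pow, hz, one_pow, one_mul,
    Complex.norm_real, Real.norm_eq_abs, abs_of_nonneg]
  · rfl
  · positivity

lemma countable_ex (z0 : ℂ) : {θ : ℝ | ex θ = z0}.Countable := by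
  rcases Set.eq_empty_or_nonempty {θ : ℝ | ex θ = z0} with h | ⟨t, ht⟩
  · rw [h]; exact Set.countable_empty
  · refine (Set.countable_range (fun n : ℤ => t + n * (2 * Real.pi))).mono ?_
    intro θ hθ
    have h1 : ex θ = ex t := hθ.trans ht.symm
    unfold ex at h1
    rw [Complex.exp_eq_exp_iff_exists_int] at h1
    obtain ⟨n, hn⟩ := h1
    refine ⟨n, ?_⟩
    have h2 : ((θ : ℂ)) = ((t + n * (2 * Real.pi) : ℝ) : ℂ) := by
      have : (θ : ℂ) * I = ((t + n * (2 * Real.pi) : ℝ) : ℂ) * I := by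
        rw [hn]; push_cast; ring
      exact mul_right_cancel₀ Complex.I_ne_zero this
    exact (Complex.ofReal_injective h2).symm

lemma int_ph (hB : S_BUMP) (z0 : ℂ) (h0 : ‖z0‖ = 1) :
    Tendsto (fun N : ℕ => ∫ θ in (0:ℝ)..(2 * Real.pi), (ph z0 N (ex θ)) ^ 2) atTop (𝓝 0) := by
  have h := intervalIntegral.tendsto_integral_filter_of_dominated_convergence
    (μ := volume) (a := (0:ℝ)) (b := 2 * Real.pi) (l := atTop)
    (F := fun (N : ℕ) (θ : ℝ) => (ph z0 N (ex θ)) ^ 2) (f := fun _ => (0:ℝ)) (fun _ => (1:ℝ))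
    ?_ ?_ ?_ ?_
  · simpa using h
  · refine Eventually.of_forall fun N => ?_
    exact (((ph_continuous z0 N).comp continuous_ex).pow 2).aestronglyMeasurable
  · refine Eventually.of_forall fun N => Eventually.of_forall fun θ _ => ?_
    have h1 := (hB.1 z0 (ex θ) N h0 (norm_ex θ)).2
    have h2 := ph_nonneg z0 N (ex θ)
    rw [Real.norm_eq_abs, abs_of_nonneg (by positivity)]
    exact pow_le_one₀ h2 h1
  · exact intervalIntegrable_const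
  · have hae : ∀ᵐ θ : ℝ, ex θ ≠ z0 := by
      have := (countable_ex z0).ae_notMem (volume : Measure ℝ)
      simpa using this
    filter_upwards [hae] with θ hθ _
    rw [Metric.tendsto_atTop]
    intro e he
    have hd : 0 < ‖ex θ - z0‖ := norm_pos_iff.2 (sub_ne_zero.2 hθ)
    obtain ⟨N0, hN0⟩ := hB.2 ‖ex θ - z0‖ (min 1 (e / 2)) hd (by positivity)
    refine ⟨N0, fun N hN => ?_⟩
    have h1 : ph z0 N (ex θ) ≤ min 1 (e / 2) := hN0 N hN z0 (ex θ) h0 (norm_ex θ) le_rfl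
    have h2 := ph_nonneg z0 N (ex θ)
    rw [Real.dist_eq, sub_zero, abs_of_nonneg (by positivity)]
    have h3 : ph z0 N (ex θ) ≤ 1 := h1.trans (min_le_left _ _)
    have h4 : ph z0 N (ex θ) ≤ e / 2 := h1.trans (min_le_right _ _)
    nlinarith

lemma inv_cube_sub (x y : ℂ) (m : ℝ) (hm : 0 < m) (hx : m ≤ ‖x‖) (hy : m ≤ ‖y‖) :
    ‖(x ^ 3)⁻¹ - (y ^ 3)⁻¹‖ ≤ 3 / m ^ 4 * ‖x - y‖ := by
  have hx0 : x ≠ 0 := norm_pos_iff.1 (hm.trans_le hx)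
  have hy0 : y ≠ 0 := norm_pos_iff.1 (hm.trans_le hy)
  have hxi : ‖x⁻¹‖ ≤ m⁻¹ := by rw [norm_inv]; exact inv_anti₀ hm hx
  have hyi : ‖y⁻¹‖ ≤ m⁻¹ := by rw [norm_inv]; exact inv_anti₀ hm hy
  have key : (x ^ 3)⁻¹ - (y ^ 3)⁻¹ = -(x - y) * (x⁻¹ ^ 3 * y⁻¹ + x⁻¹ ^ 2 * y⁻¹ ^ 2 +
      x⁻¹ * y⁻¹ ^ 3) := by
    field_simp
    ring
  rw [key, norm_mul, norm_neg, mul_comm]
  have h1 : ‖x⁻¹ ^ 3 * y⁻¹ + x⁻¹ ^ 2 * y⁻¹ ^ 2 + x⁻¹ * y⁻¹ ^ 3‖ ≤ 3 / m ^ 4 := by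
    have e1 : ‖x⁻¹ ^ 3 * y⁻¹‖ ≤ m⁻¹ ^ 3 * m⁻¹ := by
      rw [norm_mul, norm_pow]; gcongr
    have e2 : ‖x⁻¹ ^ 2 * y⁻¹ ^ 2‖ ≤ m⁻¹ ^ 2 * m⁻¹ ^ 2 := by
      rw [norm_mul, norm_pow, norm_pow]; gcongr
    have e3 : ‖x⁻¹ * y⁻¹ ^ 3‖ ≤ m⁻¹ * m⁻¹ ^ 3 := by
      rw [norm_mul, norm_pow]; gcongr
    calc _ ≤ ‖x⁻¹ ^ 3 * y⁻¹‖ + ‖x⁻¹ ^ 2 * y⁻¹ ^ 2‖ + ‖x⁻¹ * y⁻¹ ^ 3‖ := norm_add₃_le
      _ ≤ m⁻¹ ^ 3 * m⁻¹ + m⁻¹ ^ 2 * m⁻¹ ^ 2 + m⁻¹ * m⁻¹ ^ 3 := by gcongr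
      _ = 3 / m ^ 4 := by field_simp; norm_num
  gcongr

theorem t_STA (hB : S_BUMP) (hKK : S_KK) : S_STA := by
  intro u hu z0 h0 b hb ε hε
  -- lower bound of `u` on the circle
  have hcomp : IsCompact (sphere (0:ℂ) 1) := isCompact_sphere _ _
  have hne : (sphere (0:ℂ) 1).Nonempty := ⟨z0, by simpa using h0⟩
  have hcu : ContinuousOn (fun z : ℂ => ‖u.eval z‖) (sphere (0:ℂ) 1) := by fun_prop
  obtain ⟨zm, hzm, hmin⟩ := hcomp.exists_isMinOn hne hcu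
  obtain ⟨m, hm, hmu⟩ : ∃ m : ℝ, 0 < m ∧ ∀ z : ℂ, ‖z‖ = 1 → m ≤ ‖u.eval z‖ := by
    refine ⟨‖u.eval zm‖, ?_, ?_⟩
    · exact norm_pos_iff.2 (hu zm (by have : ‖zm‖ = 1 := by simpa using hzm
                                      exact this.le))
    · intro z hz
      exact hmin (by simpa using hz)
  have hu0 : 0 < ‖u.eval z0‖ := hm.trans_le (hmu z0 h0)
  -- continuity at `z0`
  have hKc : ContinuousWithinAt (K u) (sphere (0:ℂ) 1) z0 :=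
    ((K_continuousOn hKK u hu).mono sphere_subset_closedBall) z0 (by simpa using h0)
  have huc : ContinuousWithinAt (fun z : ℂ => ‖u.eval z‖) (sphere (0:ℂ) 1) z0 :=
    hcu z0 (by simpa using h0)
  have hG : ContinuousWithinAt (fun z : ℂ => ‖K u z‖ + 2 * ‖b‖ / ‖u.eval z‖ ^ 2 +
      20 * ‖b‖ ^ 2 / ‖u.eval z‖ ^ 3) (sphere (0:ℂ) 1) z0 := by
    refine (hKc.norm.add ?_).add ?_
    · exact continuousWithinAt_const.div (huc.pow 2) (by positivity)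
    · exact continuousWithinAt_const.div (huc.pow 3) (by positivity)
  have ev1 : ∀ᶠ z in 𝓝[sphere (0:ℂ) 1] z0, ‖K u z‖ + 2 * ‖b‖ / ‖u.eval z‖ ^ 2 +
      20 * ‖b‖ ^ 2 / ‖u.eval z‖ ^ 3 < (‖K u z0‖ + 2 * ‖b‖ / ‖u.eval z0‖ ^ 2 +
      20 * ‖b‖ ^ 2 / ‖u.eval z0‖ ^ 3) + ε :=
    hG.eventually_lt continuousWithinAt_const (by simpa using hε)
  have ev2 : ∀ᶠ z in 𝓝[sphere (0:ℂ) 1] z0, ‖u.eval z0‖ / 2 < ‖u.eval z‖ :=
    continuousWithinAt_const.eventually_lt huc (by linarith)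
  obtain ⟨δ, hδ, hnear⟩ : ∃ δ > 0, ∀ z : ℂ, ‖z‖ = 1 → ‖z - z0‖ < δ →
      (‖K u z‖ + 2 * ‖b‖ / ‖u.eval z‖ ^ 2 +
      20 * ‖b‖ ^ 2 / ‖u.eval z‖ ^ 3 < (‖K u z0‖ + 2 * ‖b‖ / ‖u.eval z0‖ ^ 2 +
      20 * ‖b‖ ^ 2 / ‖u.eval z0‖ ^ 3) + ε) ∧ ‖u.eval z0‖ / 2 < ‖u.eval z‖ := by
    have := ev1.and ev2
    rw [Metric.nhdsWithin_basis_ball.eventually_iff] at this
    obtain ⟨δ, hδ, h⟩ := this
    refine ⟨δ, hδ, fun z hz hzz => ?_⟩
    exact h ⟨by simpa [dist_eq_norm] using hzz, by simpa using hz⟩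
  -- the small number `η`
  set B : ℝ := 3 * ‖b‖ + 1 with hBdef
  set D : ℝ := 2 * ‖b‖ / m ^ 2 + 20 * ‖b‖ ^ 2 / m ^ 3 + 1 with hDdef
  have hBpos : 0 < B := by positivity
  have hDpos : 0 < D := by positivity
  obtain ⟨η, hη, hη1, hη2, hη3⟩ : ∃ η : ℝ, 0 < η ∧ η ≤ 1 ∧ B * η ≤ m ∧ D * η ≤ ε := by
    refine ⟨min 1 (min (m / B) (ε / D)), by positivity, min_le_left _ _, ?_, ?_⟩
    · calc B * min 1 (min (m / B) (ε / D)) ≤ B * (m / B) := by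
            gcongr; exact (min_le_right _ _).trans (min_le_left _ _)
        _ = m := by field_simp
    · calc D * min 1 (min (m / B) (ε / D)) ≤ D * (ε / D) := by
            gcongr; exact (min_le_right _ _).trans (min_le_right _ _)
        _ = ε := by field_simp
  obtain ⟨N0, hN0⟩ := hB.2 δ η hδ hη
  -- the integral
  set L : ℝ := (3 / (2 / 3 * m) ^ 4 * ‖b‖) ^ 2 with hLdef
  have hint := (int_ph hB z0 h0).const_mul L
  rw [mul_zero] at hint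
  have ev3 : ∀ᶠ N : ℕ in atTop, L * ∫ θ in (0:ℝ)..(2 * Real.pi), (ph z0 N (ex θ)) ^ 2 < ε :=
    hint.eventually_lt_const hε
  obtain ⟨N, hN1, hN2⟩ := ((eventually_ge_atTop N0).and ev3).exists
  have hv : ∀ z : ℂ, ‖z‖ = 1 → ‖(C b * bump z0 N).eval z‖ = ‖b‖ * ph z0 N z :=
    fun z hz => norm_v hB z0 h0 b N z hz
  have hph1 : ∀ z : ℂ, ‖z‖ = 1 → ph z0 N z ≤ 1 := fun z hz => (hB.1 z0 z N h0 hz).2
  have hv1 : ∀ z : ℂ, ‖z‖ = 1 → ‖(C b * bump z0 N).eval z‖ ≤ ‖b‖ := by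
    intro z hz
    rw [hv z hz]
    exact mul_le_of_le_one_right (norm_nonneg _) (hph1 z hz)
  have hv2 : ∀ z : ℂ, ‖z‖ = 1 → δ ≤ ‖z - z0‖ → ‖(C b * bump z0 N).eval z‖ ≤ ‖b‖ * η := by
    intro z hz hzz
    rw [hv z hz]
    exact mul_le_mul_of_nonneg_left (hN0 N hN1 z0 z h0 hz hzz) (norm_nonneg _)
  have hA : ∀ z : ℂ, ‖z‖ = 1 → 3 * ‖(C b * bump z0 N).eval z‖ ≤ ‖u.eval z‖ := by
    intro z hz
    rcases lt_or_ge ‖z - z0‖ δ with h | h
    · have h1 := (hnear z hz h).2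
      have h2 := hv1 z hz
      linarith
    · have h1 := hv2 z hz h
      have h2 := hmu z hz
      have h3 : 3 * ‖b‖ * η ≤ B * η := by
        apply mul_le_mul_of_nonneg_right _ hη.le
        simp [hBdef]
      linarith
  refine ⟨N, hA, ?_, ?_⟩
  · intro z hz
    set s := ‖(C b * bump z0 N).eval z‖ with hs
    have hs0 : 0 ≤ s := norm_nonneg _
    have huz : 0 < ‖u.eval z‖ := hm.trans_le (hmu z hz)
    rcases lt_or_ge ‖z - z0‖ δ with h | h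
    · have h1 := (hnear z hz h).1
      have h2 : s ≤ ‖b‖ := hv1 z hz
      have h3 : 2 * s / ‖u.eval z‖ ^ 2 ≤ 2 * ‖b‖ / ‖u.eval z‖ ^ 2 := by gcongr
      have h4 : 20 * s ^ 2 / ‖u.eval z‖ ^ 3 ≤ 20 * ‖b‖ ^ 2 / ‖u.eval z‖ ^ 3 := by gcongr
      have h5 := le_max_right ‖K u z‖ (‖K u z0‖ + 2 * ‖b‖ / ‖u.eval z0‖ ^ 2 +
        20 * ‖b‖ ^ 2 / ‖u.eval z0‖ ^ 3)
      linarith
    · have h1 : s ≤ ‖b‖ * η := hv2 z hz h
      have h2 := hmu z hz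
      have h3 : 2 * s / ‖u.eval z‖ ^ 2 ≤ 2 * (‖b‖ * η) / m ^ 2 := by gcongr
      have h4 : 20 * s ^ 2 / ‖u.eval z‖ ^ 3 ≤ 20 * (‖b‖ * η) ^ 2 / m ^ 3 := by gcongr
      have h5 := le_max_left ‖K u z‖ (‖K u z0‖ + 2 * ‖b‖ / ‖u.eval z0‖ ^ 2 +
        20 * ‖b‖ ^ 2 / ‖u.eval z0‖ ^ 3)
      have h6 : 20 * (‖b‖ * η) ^ 2 / m ^ 3 ≤ 20 * ‖b‖ ^ 2 / m ^ 3 * η := by
        have : 20 * (‖b‖ * η) ^ 2 / m ^ 3 = 20 * ‖b‖ ^ 2 / m ^ 3 * (η * η) := by ring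
        rw [this]
        have h7 : η * η ≤ η := by nlinarith
        gcongr
      have h8 : 2 * (‖b‖ * η) / m ^ 2 + 20 * ‖b‖ ^ 2 / m ^ 3 * η ≤ D * η := by
        rw [hDdef]
        have : 2 * (‖b‖ * η) / m ^ 2 = 2 * ‖b‖ / m ^ 2 * η := by ring
        rw [this]
        nlinarith
      linarith
  · intro Q
    set v : ℂ[X] := C b * bump z0 N with hvdef
    have hx : ∀ z : ℂ, ‖z‖ = 1 → 2 / 3 * m ≤ ‖(u + X ^ Q * v).eval z‖ := by
      intro z hz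
      have h1 : (u + X ^ Q * v).eval z = u.eval z + z ^ Q * v.eval z := by simp
      have h2 : ‖z ^ Q * v.eval z‖ = ‖v.eval z‖ := by
        rw [norm_mul, norm_pow, hz, one_pow, one_mul]
      have h3 : ‖u.eval z‖ - ‖z ^ Q * v.eval z‖ ≤ ‖u.eval z + z ^ Q * v.eval z‖ := by
        have := norm_sub_norm_le (u.eval z) (-(z ^ Q * v.eval z))
        rw [norm_neg, sub_neg_eq_add] at this
        exact this
      have h4 := hA z hz
      have h5 := hmu z hz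
      rw [h1]
      rw [h2] at h3
      linarith
    have hpt : ∀ θ : ℝ, ‖Fn (u + X ^ Q * v) (ex θ) - Fn u (ex θ)‖ ^ 2 ≤
        L * (ph z0 N (ex θ)) ^ 2 := by
      intro θ
      have hz := norm_ex θ
      have h1 := inv_cube_sub ((u + X ^ Q * v).eval (ex θ)) (u.eval (ex θ)) (2 / 3 * m)
        (by positivity) (hx _ hz) (by have := hmu _ hz; linarith)
      have h2 : ‖(u + X ^ Q * v).eval (ex θ) - u.eval (ex θ)‖ = ‖b‖ * ph z0 N (ex θ) := by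
        have : (u + X ^ Q * v).eval (ex θ) - u.eval (ex θ) = (ex θ) ^ Q * v.eval (ex θ) := by
          simp
        rw [this, norm_mul, norm_pow, hz, one_pow, one_mul, hvdef, hv _ hz]
      rw [h2] at h1
      have h3 : ‖Fn (u + X ^ Q * v) (ex θ) - Fn u (ex θ)‖ ≤
          3 / (2 / 3 * m) ^ 4 * (‖b‖ * ph z0 N (ex θ)) := h1
      calc _ ≤ (3 / (2 / 3 * m) ^ 4 * (‖b‖ * ph z0 N (ex θ))) ^ 2 := by
            gcongr
        _ = _ := by rw [hLdef]; ring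
    have hc1 : Continuous fun θ : ℝ => Fn (u + X ^ Q * v) (ex θ) := by
      unfold Fn
      refine Continuous.inv₀ ?_ ?_
      · exact ((u + X ^ Q * v).continuous.comp continuous_ex).pow 3
      · intro θ
        have := hx _ (norm_ex θ)
        have h' : (u + X ^ Q * v).eval (ex θ) ≠ 0 := by
          rw [← norm_pos_iff]
          exact lt_of_lt_of_le (by positivity) this
        exact pow_ne_zero 3 h'
    have hc2 : Continuous fun θ : ℝ => Fn u (ex θ) := by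
      unfold Fn
      refine Continuous.inv₀ ?_ ?_
      · exact (u.continuous.comp continuous_ex).pow 3
      · intro θ
        exact pow_ne_zero 3 (hu _ (norm_ex θ).le)
    calc (∫ θ in (0:ℝ)..(2 * Real.pi), ‖Fn (u + X ^ Q * v) (ex θ) - Fn u (ex θ)‖ ^ 2)
        ≤ ∫ θ in (0:ℝ)..(2 * Real.pi), L * (ph z0 N (ex θ)) ^ 2 := by
          apply intervalIntegral.integral_mono_on (by positivity)
          · exact (((hc1.sub hc2).norm).pow 2).intervalIntegrable _ _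
          · exact (continuous_const.mul
              (((ph_continuous z0 N).comp continuous_ex).pow 2)).intervalIntegrable _ _
          · intro θ _; exact hpt θ
      _ = L * ∫ θ in (0:ℝ)..(2 * Real.pi), (ph z0 N (ex θ)) ^ 2 := by
          rw [intervalIntegral.integral_const_mul]
      _ ≤ ε := hN2.le

end Pool.Agent.U955.BX
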